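import Pool.Agent.helper61.PNB.Model
/-! MODULE C : algebra of `x3` on `XH`. -/
open Complex Metric Set Filter Topology InnerProductSpace
open scoped ContDiff Manifold Laplacian
noncomputable section
namespace PNB

/-! ## Preliminaries -/

/-- triples and functions -/
def tripEquiv : Fin 3 × Fin 3 × Fin 3 ≃ Q where
  toFun t := ![t.1, t.2.1, t.2.2]
  invFun q := (q 0, q 1, q 2)
  left_inv := by rintro ⟨i, j, k⟩; simp
  right_inv := by
    intro q
    funext j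
    fin_cases j <;> simp

theorem ev_eq (T : TQ) (x : Pt) :
    ev T x = ∑ i, ∑ j, ∑ k, T ![i, j, k] * (mono (x 0) i * mono (x 1) j * mono (x 2) k) := by
  unfold ev
  rw [← Equiv.sum_comp tripEquiv, Fintype.sum_prod_type]
  refine Finset.sum_congr rfl fun i _ => ?_
  rw [Fintype.sum_prod_type]
  refine Finset.sum_congr rfl fun j _ => Finset.sum_congr rfl fun k _ => ?_
  simp [tripEquiv, Fin.prod_univ_three]

/-- the quadratic form `X ↦ T(X, x₁, x₂)` -/
theorem ev_vec (p : HL) (X : Fin 2 → ℂ) :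
    ev p.2 ![X, p.1 1, p.1 2] = ∑ i, qc p i * mono X i := by
  rw [ev_eq]
  refine Finset.sum_congr rfl fun i _ => ?_
  unfold qc
  rw [Finset.sum_mul]
  refine Finset.sum_congr rfl fun j _ => ?_
  rw [Finset.sum_mul]
  refine Finset.sum_congr rfl fun k _ => ?_
  simp only [Matrix.cons_val_zero, Matrix.cons_val_one, Matrix.cons_val]
  ring

theorem pt_eta (x : Pt) : ![x 0, x 1, x 2] = x := by
  funext j
  fin_cases j <;> simp

theorem ev_self (p : HL) : ev p.2 p.1 = ∑ i, qc p i * mono (p.1 0) i := by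
  rw [← ev_vec, pt_eta]

theorem sum_mono (c : Fin 3 → ℂ) (X : Fin 2 → ℂ) :
    ∑ i, c i * mono X i = c 0 * X 0 ^ 2 + c 1 * (X 0 * X 1) + c 2 * X 1 ^ 2 := by
  simp [Fin.sum_univ_three, mono]

theorem x3_pair {p : HL} (hp : p ∈ XH) :
    qc p 0 = p.1 0 1 * x3 p 1 ∧ qc p 1 = -(p.1 0 1 * x3 p 0 + p.1 0 0 * x3 p 1) ∧
      qc p 2 = p.1 0 0 * x3 p 0 := by
  have h := hp.2.2
  rw [ev_self, sum_mono] at h
  by_cases h0 : p.1 0 0 ≠ 0
  · simp only [x3, if_pos h0, Matrix.cons_val_zero, Matrix.cons_val_one]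
    refine ⟨?_, ?_, ?_⟩
    · field_simp
      linear_combination h
    · field_simp
      ring
    · field_simp
  · simp only [x3, if_neg h0, Matrix.cons_val_zero, Matrix.cons_val_one]
    push Not at h0
    have h1 : p.1 0 1 ≠ 0 := by
      intro h1
      apply hp.1 0
      funext j
      fin_cases j
      · exact h0
      · exact h1
    rw [h0] at h ⊢
    refine ⟨?_, ?_, ?_⟩
    · field_simp
    · field_simp
      ring
    · have : qc p 2 * p.1 0 1 ^ 2 = 0 := by linear_combination h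
      have h2 : qc p 2 = 0 := by
        rcases mul_eq_zero.1 this with h | h
        · exact h
        · exact absurd (pow_eq_zero_iff (two_ne_zero)|>.1 h) h1
      rw [h2]
      ring

theorem ev_x3 {p : HL} (hp : p ∈ XH) (X : Fin 2 → ℂ) :
    ev p.2 ![X, p.1 1, p.1 2] = wedge X (p.1 0) * wedge X (x3 p) := by
  obtain ⟨h0, h1, h2⟩ := x3_pair hp
  rw [ev_vec, sum_mono, h0, h1, h2]
  unfold wedge
  ring

theorem solve_unique {u y z : Fin 2 → ℂ} (hu : u ≠ 0) (h0 : u 1 * y 1 = u 1 * z 1)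
    (h1 : u 1 * y 0 + u 0 * y 1 = u 1 * z 0 + u 0 * z 1) (h2 : u 0 * y 0 = u 0 * z 0) : y = z := by
  by_cases ha : u 0 = 0
  · have hb : u 1 ≠ 0 := by
      intro hb
      apply hu
      funext j
      fin_cases j
      · exact ha
      · exact hb
    have e1 : y 1 = z 1 := mul_left_cancel₀ hb h0
    have e0 : y 0 = z 0 := by
      rw [ha] at h1
      apply mul_left_cancel₀ hb
      linear_combination h1
    funext j
    fin_cases j
    · exact e0
    · exact e1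
  · have e0 : y 0 = z 0 := mul_left_cancel₀ ha h2
    have e1 : y 1 = z 1 := by
      apply mul_left_cancel₀ ha
      rw [e0] at h1
      linear_combination h1
    funext j
    fin_cases j
    · exact e0
    · exact e1

theorem wedge_unique {u y z : Fin 2 → ℂ} (hu : u ≠ 0)
    (h : ∀ X, wedge X u * wedge X y = wedge X u * wedge X z) : y = z := by
  have h0 := h ![1, 0]
  have h1 := h ![0, 1]
  have h2 := h ![1, 1]
  simp only [wedge, Matrix.cons_val_zero, Matrix.cons_val_one] at h0 h1 h2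
  apply solve_unique hu
  · linear_combination h0
  · linear_combination h0 + h1 - h2
  · linear_combination h1

theorem x3_unique {p : HL} (hp : p ∈ XH) {y : Fin 2 → ℂ}
    (h : ∀ X, ev p.2 ![X, p.1 1, p.1 2] = wedge X (p.1 0) * wedge X y) : y = x3 p := by
  apply wedge_unique (hp.1 0)
  intro X
  rw [← h, ev_x3 hp]

theorem mono_smul_C (c : ℂ) (x : Fin 2 → ℂ) (i : Fin 3) : mono (c • x) i = c ^ 2 * mono x i := by
  fin_cases i <;> simp [mono] <;> ring

theorem ev_smul_smul (c : Fin 3 → ℂ) (d : ℂ) (T : TQ) (x : Pt) :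
    ev (d • T) (fun j => c j • x j) = d * (c 0 ^ 2 * c 1 ^ 2 * c 2 ^ 2) * ev T x := by
  unfold ev
  rw [Finset.mul_sum]
  refine Finset.sum_congr rfl fun q _ => ?_
  simp only [mono_smul_C, Fin.prod_univ_three, Pi.smul_apply, smul_eq_mul]
  ring

theorem hact_mem {c : Fin 3 → ℂ} {d : ℂ} (hc : ∀ j, c j ≠ 0) (hd : d ≠ 0) {p : HL} (hp : p ∈ XH) :
    hact c d p ∈ XH := by
  refine ⟨fun j => ?_, ?_, ?_⟩
  · exact smul_ne_zero (hc j) (hp.1 j)
  · exact smul_ne_zero hd hp.2.1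
  · have h := hp.2.2
    simp only [hact]
    rw [ev_smul_smul, h, mul_zero]

theorem wedge_smul_right (a : ℂ) (X y : Fin 2 → ℂ) : wedge X (a • y) = a * wedge X y := by
  simp [wedge]
  ring

theorem x3_hact {c : Fin 3 → ℂ} {d : ℂ} (hc : ∀ j, c j ≠ 0) (hd : d ≠ 0) {p : HL} (hp : p ∈ XH) :
    x3 (hact c d p) = (d * c 1 ^ 2 * c 2 ^ 2 / c 0) • x3 p := by
  symm
  apply x3_unique (hact_mem hc hd hp)
  intro X
  have h := ev_x3 hp X
  have e : (![X, (hact c d p).1 1, (hact c d p).1 2] : Pt) =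
      fun j => (![1, c 1, c 2] : Fin 3 → ℂ) j • (![X, p.1 1, p.1 2] : Pt) j := by
    funext j
    fin_cases j <;> simp [hact]
  rw [e]
  simp only [hact]
  rw [ev_smul_smul, h, wedge_smul_right, wedge_smul_right]
  simp only [Matrix.cons_val_zero, Matrix.cons_val_one, Matrix.cons_val]
  field_simp [hc 0]

theorem iot_mem {p : HL} (hp : p ∈ XH) (h : x3 p ≠ 0) : iot p ∈ XH := by
  refine ⟨fun j => ?_, hp.2.1, ?_⟩
  · fin_cases j
    · simpa [iot] using h
    · simpa [iot] using hp.1 1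
    · simpa [iot] using hp.1 2
  · simp only [iot]
    rw [ev_x3 hp]
    have : wedge (x3 p) (x3 p) = 0 := by
      unfold wedge
      ring
    rw [this, mul_zero]

theorem rot_mem {p : HL} (hp : p ∈ XH) : rot p ∈ XH := by
  refine ⟨fun j => hp.1 _, ?_, ?_⟩
  · intro h
    apply hp.2.1
    funext q
    have := congrFun h (fun j => q (j + 1))
    simpa [rot] using this
  · have h := hp.2.2
    rw [← h]
    simp only [rot, ev]
    rw [← Equiv.sum_comp ((Equiv.addRight (1 : Fin 3)).arrowCongr (Equiv.refl (Fin 3)))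
      (fun q => p.2 q * ∏ j, mono (p.1 j) (q j))]
    refine Finset.sum_congr rfl fun q _ => ?_
    have e : ((Equiv.addRight (1 : Fin 3)).arrowCongr (Equiv.refl (Fin 3))) q =
        fun j => q (j - 1) := by
      funext j
      simp [Equiv.arrowCongr, sub_eq_add_neg]
    rw [e]
    congr 1
    rw [← Equiv.prod_comp (Equiv.addRight (1 : Fin 3)) (fun j => mono (p.1 j) (q (j - 1)))]
    refine Finset.prod_congr rfl fun j _ => ?_
    simp

theorem rotInv_eq (p : HL) : rotInv p = rot (rot p) := by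
  have h1 : ∀ j : Fin 3, j + 1 + 1 = j - 1 := by decide
  have h2 : ∀ j : Fin 3, j - 1 - 1 = j + 1 := by decide
  simp only [rotInv, rot, h1, h2]

theorem rotInv_mem {p : HL} (hp : p ∈ XH) : rotInv p ∈ XH := by
  rw [rotInv_eq]
  exact rot_mem (rot_mem hp)

/-! ## the two formulas -/

/-- first formula -/
def x3a (p : HL) : Fin 2 → ℂ :=
  ![qc p 2 / p.1 0 0, (- qc p 1 - p.1 0 1 * (qc p 2 / p.1 0 0)) / p.1 0 0]
/-- second formula -/
def x3b (p : HL) : Fin 2 → ℂ :=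
  ![(- qc p 1 - p.1 0 0 * (qc p 0 / p.1 0 1)) / p.1 0 1, qc p 0 / p.1 0 1]

theorem x3_eq_a {p : HL} (h : p.1 0 0 ≠ 0) : x3 p = x3a p := by
  simp only [x3, if_pos h, x3a]

theorem x3_eq_b {p : HL} (hp : p ∈ XH) (h : p.1 0 1 ≠ 0) : x3 p = x3b p := by
  obtain ⟨h0, h1, h2⟩ := x3_pair hp
  funext j
  fin_cases j
  · simp only [x3b, Fin.zero_eta, Matrix.cons_val_zero]
    rw [h0, h1]
    field_simp
    ring
  · simp only [x3b, Fin.mk_one, Matrix.cons_val_one, Matrix.cons_val_fin_one]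
    rw [h0]
    field_simp

theorem dAt_div {E : Type*} [NormedAddCommGroup E] [NormedSpace ℂ E] {f g : E → ℂ} {x : E}
    (hf : DifferentiableAt ℂ f x) (hg : DifferentiableAt ℂ g x) (h : g x ≠ 0) :
    DifferentiableAt ℂ (fun y => f y / g y) x := by
  simp only [div_eq_mul_inv]
  exact hf.fun_mul (hg.fun_inv h)

theorem differentiable_mono {E : Type*} [NormedAddCommGroup E] [NormedSpace ℂ E]
    {f : E → Fin 2 → ℂ} {s : Set E} {x : E} (hf : ∀ k, DifferentiableWithinAt ℂ (fun y => f y k) s x)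
    (i : Fin 3) : DifferentiableWithinAt ℂ (fun y => mono (f y) i) s x := by
  unfold mono
  exact ((hf 0).pow _).mul ((hf 1).pow _)

theorem differentiable_qc (i : Fin 3) : Differentiable ℂ (fun p : HL => qc p i) := by
  unfold qc mono
  fun_prop

theorem differentiableAt_x3a {p : HL} (h : p.1 0 0 ≠ 0) : DifferentiableAt ℂ x3a p := by
  have d0 := (differentiable_qc 0).differentiableAt (x := p)
  have d1 := (differentiable_qc 1).differentiableAt (x := p)
  have d2 := (differentiable_qc 2).differentiableAt (x := p)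
  have e0 : DifferentiableAt ℂ (fun p : HL => p.1 0 0) p := by fun_prop
  have e1 : DifferentiableAt ℂ (fun p : HL => p.1 0 1) p := by fun_prop
  have f0 : DifferentiableAt ℂ (fun q : HL => qc q 2 / q.1 0 0) p :=
    dAt_div d2 e0 h
  have f1 : DifferentiableAt ℂ (fun q : HL => (- qc q 1 - q.1 0 1 * (qc q 2 / q.1 0 0)) / q.1 0 0) p :=
    dAt_div (d1.fun_neg.fun_sub (e1.fun_mul f0)) e0 h
  rw [differentiableAt_pi]
  intro j
  fin_cases j
  · exact f0
  · exact f1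

theorem differentiableAt_x3b {p : HL} (h : p.1 0 1 ≠ 0) : DifferentiableAt ℂ x3b p := by
  have d0 := (differentiable_qc 0).differentiableAt (x := p)
  have d1 := (differentiable_qc 1).differentiableAt (x := p)
  have d2 := (differentiable_qc 2).differentiableAt (x := p)
  have e0 : DifferentiableAt ℂ (fun p : HL => p.1 0 0) p := by fun_prop
  have e1 : DifferentiableAt ℂ (fun p : HL => p.1 0 1) p := by fun_prop
  have f0 : DifferentiableAt ℂ (fun q : HL => qc q 0 / q.1 0 1) p :=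
    dAt_div d0 e1 h
  have f1 : DifferentiableAt ℂ (fun q : HL => (- qc q 1 - q.1 0 0 * (qc q 0 / q.1 0 1)) / q.1 0 1) p :=
    dAt_div (d1.fun_neg.fun_sub (e0.fun_mul f0)) e1 h
  rw [differentiableAt_pi]
  intro j
  fin_cases j
  · exact f1
  · exact f0

theorem ne_zero_or {u : Fin 2 → ℂ} (hu : u ≠ 0) : u 0 ≠ 0 ∨ u 1 ≠ 0 := by
  by_contra h
  push Not at h
  apply hu
  funext j
  fin_cases j
  · exact h.1
  · exact h.2

/-- near a point of `XH` the map `x3` agrees on `XH` with a holomorphic map -/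
theorem exists_local {p : HL} (hp : p ∈ XH) :
    ∃ f : HL → Fin 2 → ℂ, DifferentiableAt ℂ f p ∧ f p = x3 p ∧ ∀ᶠ q in 𝓝 p, q ∈ XH → x3 q = f q := by
  rcases ne_zero_or (hp.1 0) with h | h
  · refine ⟨x3a, differentiableAt_x3a h, (x3_eq_a h).symm, ?_⟩
    have : ContinuousAt (fun q : HL => q.1 0 0) p := by fun_prop
    filter_upwards [this.eventually_ne h] with q hq _
    exact x3_eq_a hq
  · refine ⟨x3b, differentiableAt_x3b h, (x3_eq_b hp h).symm, ?_⟩
    have : ContinuousAt (fun q : HL => q.1 0 1) p := by fun_prop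
    filter_upwards [this.eventually_ne h] with q hq hm
    exact x3_eq_b hm hq

theorem continuousOn_x3 : ContinuousOn x3 XH := by
  intro p hp
  obtain ⟨f, hf, he, hq⟩ := exists_local hp
  refine (hf.continuousAt.continuousWithinAt (s := XH)).congr_of_eventuallyEq ?_ he.symm
  rw [Filter.EventuallyEq, eventually_nhdsWithin_iff]
  exact hq

/-- `x3` is holomorphic along holomorphic maps into `XH` -/
theorem differentiableOn_x3_comp {U : Set ℂ} (hU : IsOpen U) {g : ℂ → HL}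
    (hg : DifferentiableOn ℂ g U) (hm : MapsTo g U XH) : DifferentiableOn ℂ (x3 ∘ g) U := by
  intro z hz
  obtain ⟨f, hf, he, hq⟩ := exists_local (hm hz)
  have hgz : DifferentiableAt ℂ g z := (hg z hz).differentiableAt (hU.mem_nhds hz)
  have h1 : DifferentiableAt ℂ (f ∘ g) z := hf.comp z hgz
  refine (h1.congr_of_eventuallyEq ?_).differentiableWithinAt
  have h2 : ∀ᶠ w in 𝓝 z, g w ∈ XH → x3 (g w) = f (g w) := hgz.continuousAt.eventually hq
  filter_upwards [h2, hU.mem_nhds hz] with w hw hwU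
  exact hw (hm hwU)

/-! ## bound -/

theorem norm_mono_le (x : Fin 2 → ℂ) (i : Fin 3) : ‖mono x i‖ ≤ ‖x‖ ^ 2 := by
  unfold mono
  rw [norm_mul, norm_pow, norm_pow]
  have h0 := norm_le_pi_norm x 0
  have h1 := norm_le_pi_norm x 1
  calc ‖x 0‖ ^ (2 - (i : ℕ)) * ‖x 1‖ ^ (i : ℕ) ≤ ‖x‖ ^ (2 - (i : ℕ)) * ‖x‖ ^ (i : ℕ) := by gcongr
    _ = ‖x‖ ^ 2 := by
      rw [← pow_add]
      congr 1
      have := i.2
      omega

theorem norm_qc_le (p : HL) (i : Fin 3) :
    ‖qc p i‖ ≤ 9 * (‖p.2‖ * ‖p.1 1‖ ^ 2 * ‖p.1 2‖ ^ 2) := by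
  unfold qc
  calc ‖∑ j, ∑ k, p.2 ![i, j, k] * (mono (p.1 1) j * mono (p.1 2) k)‖
      ≤ ∑ j : Fin 3, ∑ k : Fin 3, ‖p.2‖ * (‖p.1 1‖ ^ 2 * ‖p.1 2‖ ^ 2) := by
        refine norm_sum_le_of_le _ fun j _ => norm_sum_le_of_le _ fun k _ => ?_
        rw [norm_mul, norm_mul]
        gcongr
        · exact norm_le_pi_norm p.2 _
        · exact norm_mono_le _ _
        · exact norm_mono_le _ _
    _ = 9 * (‖p.2‖ * ‖p.1 1‖ ^ 2 * ‖p.1 2‖ ^ 2) := by
        simp
        ring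

theorem norm_solve_le {a b y0 y1 : ℂ} {M : ℝ} (h0 : ‖b * y1‖ ≤ M) (h1 : ‖b * y0 + a * y1‖ ≤ M)
    (h2 : ‖a * y0‖ ≤ M) (hab : ‖b‖ ≤ ‖a‖) : ‖y0‖ * ‖a‖ ≤ 2 * M ∧ ‖y1‖ * ‖a‖ ≤ 2 * M := by
  have hM : 0 ≤ M := (norm_nonneg _).trans h0
  have e0 : ‖y0‖ * ‖a‖ ≤ M := by
    rw [norm_mul] at h2
    linarith [mul_comm ‖y0‖ ‖a‖]
  refine ⟨by linarith, ?_⟩
  have e1 : ‖b * y0‖ ≤ M := by
    rw [norm_mul]
    calc ‖b‖ * ‖y0‖ ≤ ‖a‖ * ‖y0‖ := by gcongr
      _ ≤ M := by linarith [mul_comm ‖y0‖ ‖a‖]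
  have e2 : ‖a * y1‖ ≤ ‖b * y0 + a * y1‖ + ‖b * y0‖ := by
    have := norm_sub_le (b * y0 + a * y1) (b * y0)
    simpa using this
  rw [norm_mul] at e2
  linarith [mul_comm ‖y1‖ ‖a‖]

theorem pi2_norm_le {u : Fin 2 → ℂ} {M : ℝ} (hM : 0 ≤ M) (h0 : ‖u 0‖ ≤ M) (h1 : ‖u 1‖ ≤ M) :
    ‖u‖ ≤ M := by
  rw [pi_norm_le_iff_of_nonneg hM]
  intro j
  fin_cases j
  · exact h0
  · exact h1

theorem norm_mul_solve_le {u y : Fin 2 → ℂ} {M : ℝ} (h0 : ‖u 1 * y 1‖ ≤ M)
    (h1 : ‖u 1 * y 0 + u 0 * y 1‖ ≤ M) (h2 : ‖u 0 * y 0‖ ≤ M) : ‖y‖ * ‖u‖ ≤ 2 * M := by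
  have hM : 0 ≤ M := (norm_nonneg _).trans h0
  have key : ∀ r : ℝ, 0 ≤ r → ‖y 0‖ * r ≤ 2 * M → ‖y 1‖ * r ≤ 2 * M → ‖y‖ * r ≤ 2 * M := by
    intro r hr ha hb
    rcases hr.eq_or_lt with h | h
    · rw [← h]
      simpa using hM
    · rw [← le_div_iff₀ h] at ha hb ⊢
      exact pi2_norm_le (by positivity) ha hb
  by_cases hab : ‖u 1‖ ≤ ‖u 0‖
  · have hu : ‖u‖ = ‖u 0‖ :=
      le_antisymm (pi2_norm_le (norm_nonneg _) le_rfl hab) (norm_le_pi_norm u 0)
    obtain ⟨ha, hb⟩ := norm_solve_le h0 h1 h2 hab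
    rw [hu]
    exact key _ (norm_nonneg _) ha hb
  · have hab' := (not_le.1 hab).le
    have hu : ‖u‖ = ‖u 1‖ :=
      le_antisymm (pi2_norm_le (norm_nonneg _) hab' le_rfl) (norm_le_pi_norm u 1)
    obtain ⟨ha, hb⟩ := norm_solve_le (a := u 1) (b := u 0) (y0 := y 1) (y1 := y 0) h2
      (by rw [add_comm]; exact h1) h0 hab'
    rw [hu]
    exact key _ (norm_nonneg _) hb ha

/-- bound (sup norms) -/
theorem exists_x3_bound : ∃ C : ℝ, 1 ≤ C ∧ ∀ p ∈ XH,
    ‖x3 p‖ * ‖p.1 0‖ ≤ C * (‖p.2‖ * ‖p.1 1‖ ^ 2 * ‖p.1 2‖ ^ 2) := by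
  refine ⟨18, by norm_num, fun p hp => ?_⟩
  obtain ⟨h0, h1, h2⟩ := x3_pair hp
  have := norm_mul_solve_le (u := p.1 0) (y := x3 p)
    (M := 9 * (‖p.2‖ * ‖p.1 1‖ ^ 2 * ‖p.1 2‖ ^ 2)) (by rw [← h0]; exact norm_qc_le p 0)
    (by
      have e : p.1 0 1 * x3 p 0 + p.1 0 0 * x3 p 1 = - qc p 1 := by rw [h1]; ring
      rw [e, norm_neg]
      exact norm_qc_le p 1) (by rw [← h2]; exact norm_qc_le p 2)
  linarith

/-! ## perturbations -/

/-- coefficients of `(X ∧ u) (X ∧ y)` -/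
def cf (u y : Fin 2 → ℂ) : Fin 3 → ℂ := ![u 1 * y 1, -(u 1 * y 0 + u 0 * y 1), u 0 * y 0]

theorem sum_cf (u y X : Fin 2 → ℂ) : ∑ i, cf u y i * mono X i = wedge X u * wedge X y := by
  rw [sum_mono]
  simp only [cf, Matrix.cons_val_zero, Matrix.cons_val_one, Matrix.cons_val, wedge]
  ring

/-- index of the square of the `σ`-th coordinate -/
def sq (σ : Fin 2) : Fin 3 := if σ = 0 then 0 else 2

theorem mono_sq (x : Fin 2 → ℂ) (σ : Fin 2) : mono x (sq σ) = x σ ^ 2 := by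
  fin_cases σ <;> simp [mono, sq]

/-- the perturbation -/
def pert (σ1 σ2 : Fin 2) (i : Fin 2) (x : Pt) : TQ := fun q =>
  if q 1 = sq σ1 ∧ q 2 = sq σ2 then
    cf (x 0) (Pi.single i 1) (q 0) / (x 1 σ1 ^ 2 * x 2 σ2 ^ 2) else 0

theorem qc_add_smul (x : Pt) (T D : TQ) (ζ : ℂ) (i : Fin 3) :
    qc (x, T + ζ • D) i = qc (x, T) i + ζ * qc (x, D) i := by
  simp only [qc, Pi.add_apply, Pi.smul_apply, smul_eq_mul, Finset.mul_sum, ← Finset.sum_add_distrib]
  refine Finset.sum_congr rfl fun j _ => Finset.sum_congr rfl fun k _ => ?_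
  ring

theorem qc_pert {σ1 σ2 : Fin 2} (i : Fin 2) {x : Pt} (h1 : x 1 σ1 ≠ 0) (h2 : x 2 σ2 ≠ 0)
    (k : Fin 3) : qc (x, pert σ1 σ2 i x) k = cf (x 0) (Pi.single i 1) k := by
  unfold qc
  rw [Finset.sum_eq_single (sq σ1), Finset.sum_eq_single (sq σ2)]
  · simp only [pert, Matrix.cons_val_zero, Matrix.cons_val_one, Matrix.cons_val, and_self, if_true,
      mono_sq]
    field_simp
  · intro j _ hj
    simp [pert, hj]
  · simp
  · intro j _ hj
    apply Finset.sum_eq_zero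
    intro l _
    simp [pert, hj]
  · simp

theorem continuousOn_pert (σ1 σ2 i : Fin 2) :
    ContinuousOn (pert σ1 σ2 i) {x : Pt | x 1 σ1 ≠ 0 ∧ x 2 σ2 ≠ 0} := by
  rw [continuousOn_pi]
  intro q
  unfold pert
  by_cases h : q 1 = sq σ1 ∧ q 2 = sq σ2
  · simp only [if_pos h]
    have hc : Continuous fun x : Pt => cf (x 0) (Pi.single i 1) (q 0) := by
      unfold cf
      generalize q 0 = k
      fin_cases k
      · simp only [Fin.zero_eta, Matrix.cons_val_zero]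
        fun_prop
      · simp only [Fin.mk_one, Matrix.cons_val_one]
        fun_prop
      · simp only [Fin.reduceFinMk, Matrix.cons_val]
        fun_prop
    refine hc.continuousOn.div (by fun_prop) ?_
    rintro x ⟨hx1, hx2⟩
    exact mul_ne_zero (pow_ne_zero _ hx1) (pow_ne_zero _ hx2)
  · simp only [if_neg h]
    exact continuousOn_const

/-- perturbations of `T` that move `x3` in the direction of a basis vector:
`E i x = (X ∧ x₀)(X ∧ e_i) · Y_{σ1}² Z_{σ2}² / (x_{1,σ1}² x_{2,σ2}²)` -/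
theorem exists_perturb {p0 : HL} (hp0 : p0 ∈ XH) :
    ∃ (O : Set Pt) (D : Fin 2 → Pt → TQ), IsOpen O ∧ p0.1 ∈ O ∧ (∀ i, ContinuousOn (D i) O) ∧
      ∀ x ∈ O, ∀ T : TQ, (x, T) ∈ XH → ∀ (i : Fin 2) (ζ : ℂ),
        x3 (x, T) + ζ • Pi.single i 1 ≠ 0 →
        ((x, T + ζ • D i x) : HL) ∈ XH ∧
        x3 (x, T + ζ • D i x) = x3 (x, T) + ζ • Pi.single i 1 := by
  obtain ⟨σ1, hσ1⟩ : ∃ σ, p0.1 1 σ ≠ 0 := Function.ne_iff.1 (hp0.1 1)
  obtain ⟨σ2, hσ2⟩ : ∃ σ, p0.1 2 σ ≠ 0 := Function.ne_iff.1 (hp0.1 2)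
  refine ⟨{x : Pt | x 1 σ1 ≠ 0 ∧ x 2 σ2 ≠ 0}, fun i => pert σ1 σ2 i, ?_, ⟨hσ1, hσ2⟩,
    fun i => continuousOn_pert σ1 σ2 i, ?_⟩
  · have e1 : IsOpen {x : Pt | x 1 σ1 ≠ 0} := isOpen_ne_fun (by fun_prop) continuous_const
    have e2 : IsOpen {x : Pt | x 2 σ2 ≠ 0} := isOpen_ne_fun (by fun_prop) continuous_const
    exact e1.inter e2
  · rintro x ⟨hx1, hx2⟩ T hT i ζ hne
    have hq : ∀ X : Fin 2 → ℂ, ev (T + ζ • pert σ1 σ2 i x) ![X, x 1, x 2] =
        wedge X (x 0) * wedge X (x3 (x, T) + ζ • Pi.single i 1) := by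
      intro X
      have h1 := ev_vec ((x, T + ζ • pert σ1 σ2 i x) : HL) X
      simp only at h1
      rw [h1]
      have h2 : ∑ k, qc (x, T + ζ • pert σ1 σ2 i x) k * mono X k =
          ∑ k, qc (x, T) k * mono X k + ζ * ∑ k, cf (x 0) (Pi.single i 1) k * mono X k := by
        rw [Finset.mul_sum, ← Finset.sum_add_distrib]
        refine Finset.sum_congr rfl fun k _ => ?_
        rw [qc_add_smul, qc_pert i hx1 hx2]
        ring
      rw [h2, sum_cf]
      have h3 := ev_vec ((x, T) : HL) X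
      have h4 := ev_x3 hT X
      simp only at h3 h4
      rw [← h3, h4]
      simp only [wedge, Pi.add_apply, Pi.smul_apply, smul_eq_mul]
      ring
    have hx0 : x 0 ≠ 0 := hT.1 0
    have hmem : ((x, T + ζ • pert σ1 σ2 i x) : HL) ∈ XH := by
      refine ⟨hT.1, ?_, ?_⟩
      · intro h0
        simp only at h0
        apply hne
        symm
        apply wedge_unique hx0
        intro X
        rw [← hq, h0]
        have e0 : ev (0 : TQ) ![X, x 1, x 2] = 0 := by simp [ev]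
        rw [e0]
        simp [wedge]
      · show ev (T + ζ • pert σ1 σ2 i x) x = 0
        have := hq (x 0)
        rw [pt_eta] at this
        rw [this]
        have e0 : wedge (x 0) (x 0) = 0 := by
          unfold wedge
          ring
        rw [e0, zero_mul]
    exact ⟨hmem, (x3_unique hmem hq).symm⟩

/-! ## retraction -/

theorem differentiable_ev : Differentiable ℂ (fun p : HL => ev p.2 p.1) := by
  unfold ev mono
  fun_prop

theorem ev_single (x : Pt) (σ : Fin 3 → Fin 2) (a : ℂ) :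
    ev (a • Pi.single (bidx σ) 1) x = a * ∏ j, x j (σ j) ^ 2 := by
  unfold ev
  rw [Finset.sum_eq_single (bidx σ)]
  · simp only [Pi.smul_apply, Pi.single_eq_same, smul_eq_mul, mul_one]
    congr 1
    refine Finset.prod_congr rfl fun j _ => ?_
    have := mono_sq (x j) (σ j)
    simpa [bidx, sq] using this
  · intro q _ hq
    simp [Pi.single_eq_of_ne hq]
  · simp

theorem ev_sub_C (T S : TQ) (x : Pt) : ev (T - S) x = ev T x - ev S x := by
  simp [ev, sub_mul, Finset.sum_sub_distrib]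

/-- `XH` is locally a holomorphic retract: `r (x,T) = (x, T - (T(x)/m(x)) e_b)`. -/
theorem exists_retract {p0 : HL} (hp0 : p0 ∈ XH) :
    ∃ (O : Set HL) (r : HL → HL), IsOpen O ∧ p0 ∈ O ∧ DifferentiableOn ℂ r O ∧ MapsTo r O XH ∧
      ∀ p ∈ XH ∩ O, r p = p := by
  have hσ' : ∀ j, ∃ σ, p0.1 j σ ≠ 0 := fun j => Function.ne_iff.1 (hp0.1 j)
  choose σ hσ using hσ'
  set U : Set HL := {p | ∀ j, p.1 j (σ j) ≠ 0} with hU
  set r : HL → HL := fun p =>
    (p.1, p.2 - (ev p.2 p.1 / ∏ j, p.1 j (σ j) ^ 2) • (Pi.single (bidx σ) 1 : TQ)) with hr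
  have hUo : IsOpen U := by
    have : U = ⋂ j, {p : HL | p.1 j (σ j) ≠ 0} := by
      ext p
      simp [hU]
    rw [this]
    exact isOpen_iInter_of_finite fun j => isOpen_ne_fun (by fun_prop) continuous_const
  have hrd : DifferentiableOn ℂ r U := by
    intro p hp
    refine DifferentiableAt.differentiableWithinAt ?_
    have h1 : DifferentiableAt ℂ (fun p : HL => ∏ j, p.1 j (σ j) ^ 2) p := by fun_prop
    have h2 : (∏ j, p.1 j (σ j) ^ 2) ≠ 0 := Finset.prod_ne_zero_iff.2 fun j _ => pow_ne_zero _ (hp j)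
    have h3 : DifferentiableAt ℂ (fun p : HL => ev p.2 p.1 / ∏ j, p.1 j (σ j) ^ 2) p :=
      dAt_div (differentiable_ev.differentiableAt (x := p)) h1 h2
    exact differentiableAt_fst.prodMk (differentiableAt_snd.sub (h3.smul_const _))
  have hfix : ∀ p ∈ XH, r p = p := by
    intro p hp
    simp only [hr]
    rw [hp.2.2]
    simp
  refine ⟨U ∩ r ⁻¹' {p | p.2 ≠ 0}, r, ?_, ⟨hσ, ?_⟩, hrd.mono inter_subset_left, ?_, ?_⟩
  · exact hrd.continuousOn.isOpen_inter_preimage hUo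
      (isOpen_ne_fun continuous_snd continuous_const)
  · show (r p0).2 ≠ 0
    rw [hfix p0 hp0]
    exact hp0.2.1
  · rintro p ⟨hp, hp2⟩
    refine ⟨fun j => ?_, hp2, ?_⟩
    · show p.1 j ≠ 0
      exact Function.ne_iff.2 ⟨σ j, hp j⟩
    · show ev (p.2 - (ev p.2 p.1 / ∏ j, p.1 j (σ j) ^ 2) • (Pi.single (bidx σ) 1 : TQ)) p.1 = 0
      rw [ev_sub_C, ev_single]
      have h2 : (∏ j, p.1 j (σ j) ^ 2) ≠ 0 :=
        Finset.prod_ne_zero_iff.2 fun j _ => pow_ne_zero _ (hp j)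
      rw [div_mul_cancel₀ _ h2, sub_self]
  · rintro p ⟨hp, _⟩
    exact hfix p hp

/-! special form `T0`, in the variables `x = X₁/X₀` etc.:
`x²+y²+z²-(3/2)(xy+yz+zx)-(1/6)(x²y+x²z+y²x+y²z+z²x+z²y)+(37/24)xyz` -/
/-- `T0 q` depends on `q` only up to permutation: value by the sum and the number of ones -/
def T0 : TQ := fun q =>
  let n : ℕ := (q 0 : ℕ) + (q 1 : ℕ) + (q 2 : ℕ)
  let m : ℕ := (if q 0 = 1 then 1 else 0) + (if q 1 = 1 then 1 else 0) + (if q 2 = 1 then 1 else 0)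
  if n = 2 ∧ m = 0 then 1 else if n = 2 ∧ m = 2 then -3/2 else
  if n = 3 ∧ m = 1 then -1/6 else if n = 3 ∧ m = 3 then 37/24 else 0

theorem T0_ne : T0 ≠ 0 := by
  intro h
  have := congrFun h (fun _ => 1)
  norm_num [T0] at this

theorem T0_rot : (fun q : Q => T0 (fun j => q (j - 1))) = T0 := by
  funext q
  have e0 : (0 - 1 : Fin 3) = 2 := by decide
  have e1 : (1 - 1 : Fin 3) = 0 := by decide
  have e2 : (2 - 1 : Fin 3) = 1 := by decide
  simp only [T0, e0, e1, e2]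
  have en : (q 2 : ℕ) + (q 0 : ℕ) + (q 1 : ℕ) = (q 0 : ℕ) + (q 1 : ℕ) + (q 2 : ℕ) := by ring
  have em : (if q 2 = 1 then 1 else 0) + (if q 0 = 1 then 1 else 0) + (if q 1 = 1 then 1 else 0) =
    (if q 0 = 1 then 1 else 0) + (if q 1 = 1 then 1 else 0) + (if q 2 = 1 then 1 else 0) := by ring
  rw [en, em]

theorem T0_rotInv : (fun q : Q => T0 (fun j => q (j + 1))) = T0 := by
  funext q
  have e0 : (0 + 1 : Fin 3) = 1 := by decide
  have e1 : (1 + 1 : Fin 3) = 2 := by decide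
  have e2 : (2 + 1 : Fin 3) = 0 := by decide
  simp only [T0, e0, e1, e2]
  have en : (q 1 : ℕ) + (q 2 : ℕ) + (q 0 : ℕ) = (q 0 : ℕ) + (q 1 : ℕ) + (q 2 : ℕ) := by ring
  have em : (if q 1 = 1 then 1 else 0) + (if q 2 = 1 then 1 else 0) + (if q 0 = 1 then 1 else 0) =
    (if q 0 = 1 then 1 else 0) + (if q 1 = 1 then 1 else 0) + (if q 2 = 1 then 1 else 0) := by ring
  rw [en, em]

/-- explicit value of `T0` -/
theorem ev_T0 (x : Pt) : ev T0 x =
    x 0 1 ^ 2 * x 1 0 ^ 2 * x 2 0 ^ 2 + x 0 0 ^ 2 * x 1 1 ^ 2 * x 2 0 ^ 2 +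
      x 0 0 ^ 2 * x 1 0 ^ 2 * x 2 1 ^ 2 -
    3 / 2 * (x 0 0 * x 0 1 * (x 1 0 * x 1 1) * x 2 0 ^ 2 + x 0 0 * x 0 1 * x 1 0 ^ 2 * (x 2 0 * x 2 1)
      + x 0 0 ^ 2 * (x 1 0 * x 1 1) * (x 2 0 * x 2 1)) -
    1 / 6 * (x 0 1 ^ 2 * (x 1 0 * x 1 1) * x 2 0 ^ 2 + x 0 1 ^ 2 * x 1 0 ^ 2 * (x 2 0 * x 2 1) +
      x 0 0 * x 0 1 * x 1 1 ^ 2 * x 2 0 ^ 2 + x 0 0 ^ 2 * x 1 1 ^ 2 * (x 2 0 * x 2 1) +
      x 0 0 * x 0 1 * x 1 0 ^ 2 * x 2 1 ^ 2 + x 0 0 ^ 2 * (x 1 0 * x 1 1) * x 2 1 ^ 2) +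
    37 / 24 * (x 0 0 * x 0 1 * (x 1 0 * x 1 1) * (x 2 0 * x 2 1)) := by
  have e21 : ¬ ((2 : Fin 3) = 1) := by decide
  have e01 : ¬ ((0 : Fin 3) = 1) := by decide
  rw [ev_eq]
  simp only [Fin.sum_univ_three, T0, mono, Matrix.cons_val_zero, Matrix.cons_val_one,
    Matrix.cons_val, e21, e01, if_false, if_true]
  norm_num
  ring

/-- the vertical line -/
theorem line_mem {X : Fin 2 → ℂ} (hX : X ≠ 0) : ((![X, ![1, 2], ![1, 4]], T0) : HL) ∈ XH := by
  refine ⟨fun j => ?_, T0_ne, ?_⟩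
  · fin_cases j
    · simpa using hX
    · simp
    · simp
  · simp only [ev_T0]
    simp only [Matrix.cons_val_zero, Matrix.cons_val_one, Matrix.cons_val]
    ring

/-- points `p(s)` -/
def pz (s : ℂ) : HL := (![![1, s], ![1, 2 * s], ![1, 4 * s]], T0)

theorem pz_mem (s : ℂ) : pz s ∈ XH := by
  refine ⟨fun j => ?_, T0_ne, ?_⟩
  · fin_cases j <;> simp [pz]
  · simp only [pz, ev_T0]
    simp only [Matrix.cons_val_zero, Matrix.cons_val_one, Matrix.cons_val]
    ring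

/-- `x3` of the rotated point: `G (p(s)) = ((1-s/2)(1,s/2),(1,s),(1,2s))` -/
theorem x3_rotInv_pz (s : ℂ) : x3 (rotInv (pz s)) = (1 - s / 2) • ![1, s / 2] := by
  symm
  apply x3_unique (rotInv_mem (pz_mem s))
  intro X
  have e0 : (0 - 1 : Fin 3) = 2 := by decide
  have e1 : (1 - 1 : Fin 3) = 0 := by decide
  have e2 : (2 - 1 : Fin 3) = 1 := by decide
  simp only [rotInv, pz, T0_rotInv, ev_T0, e0, e1, e2]
  simp only [Matrix.cons_val_zero, Matrix.cons_val_one, Matrix.cons_val, wedge, Pi.smul_apply,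
    smul_eq_mul]
  ring

theorem x3_pz_zero : x3 (pz 0) = ![1, 0] := by
  symm
  apply x3_unique (pz_mem 0)
  intro X
  simp only [pz, ev_T0]
  simp only [Matrix.cons_val_zero, Matrix.cons_val_one, Matrix.cons_val, wedge]
  ring

end PNB
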