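import Pool.Agent.helper61.PNB.Hom
import Pool.Agent.helper41.PNB.C
/-! MODULE D : pull-backs of homogeneous psh functions (see `ext_psh`, `PSHOn.comp`, `HolOn` in
`Pool/Agent/helper61/PNB/ModB.lean`, and `InP`, `pbi` in `Hom.lean`). -/
open Complex Metric Set Filter Topology InnerProductSpace
open scoped ContDiff Manifold Laplacian
noncomputable section
namespace PNB

theorem locRetr_XH : LocRetr XH := fun _ hp => exists_retract hp

theorem holOn_x3 : HolOn x3 XH :=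
  ⟨continuousOn_x3, fun _ _ hU hg hm => differentiableOn_x3_comp hU hg hm⟩

theorem holOn_iot' : HolOn iot XH := by
  refine ⟨?_, ?_⟩
  · refine ContinuousOn.prodMk ?_ continuous_snd.continuousOn
    rw [continuousOn_pi]
    intro j
    fin_cases j
    · exact continuousOn_x3
    · exact (by fun_prop : Continuous fun p : HL => p.1 1).continuousOn
    · exact (by fun_prop : Continuous fun p : HL => p.1 2).continuousOn
  · intro U g hU hg hm
    have h1 := differentiableOn_x3_comp hU hg hm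
    have h2 : DifferentiableOn ℂ (fun ζ => (g ζ).1 1) U :=
      (by fun_prop : Differentiable ℂ fun p : HL => p.1 1).comp_differentiableOn hg
    have h3 : DifferentiableOn ℂ (fun ζ => (g ζ).1 2) U :=
      (by fun_prop : Differentiable ℂ fun p : HL => p.1 2).comp_differentiableOn hg
    have h4 : DifferentiableOn ℂ (fun ζ => (g ζ).2) U :=
      (by fun_prop : Differentiable ℂ fun p : HL => p.2).comp_differentiableOn hg
    refine DifferentiableOn.prodMk ?_ h4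
    rw [differentiableOn_pi]
    intro j
    fin_cases j
    · exact h1
    · exact h2
    · exact h3

theorem holOn_iot : HolOn iot (XH ∩ {p | x3 p ≠ 0}) := holOn_iot'.mono inter_subset_left

theorem holOn_rot : HolOn rot XH :=
  HolOn.of_diff (O := univ) (by unfold rot; fun_prop) (subset_univ _)

theorem holOn_rotInv : HolOn rotInv XH :=
  HolOn.of_diff (O := univ) (by unfold rotInv; fun_prop) (subset_univ _)

theorem pbi_of_ne {Φ : HL → EReal} {p : HL} (h : x3 p ≠ 0) : pbi Φ p = Φ (iot p) := ext_of_ne h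

theorem bdd_of_compact {α : Type*} [TopologicalSpace α] {w : α → EReal} {K : Set α}
    (hK : IsCompact K) (hw : UpperSemicontinuousOn w K) (htop : ∀ x ∈ K, w x < ⊤) :
    ∃ C : ℝ, ∀ x ∈ K, w x ≤ (C : EReal) := by
  rcases K.eq_empty_or_nonempty with h | h
  · exact ⟨0, by simp [h]⟩
  · obtain ⟨a, ha, hmax⟩ := hw.exists_isMaxOn h hK
    obtain ⟨C, hC1, -⟩ := EReal.exists_between_coe_real (htop a ha)
    exact ⟨C, fun x hx => (hmax hx).trans hC1.le⟩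

/-- local upper bound near `{x3 = 0}` -/
theorem local_bound {w : HL → EReal} (hw : PSHOn w (XH ∩ {p | x3 p ≠ 0})) {p0 : HL} (hp0 : p0 ∈ XH)
    (h0 : x3 p0 = 0) :
    ∃ C : ℝ, ∀ᶠ y in 𝓝[XH ∩ {p | x3 p ≠ 0}] p0, w y ≤ (C : EReal) := by
  obtain ⟨O, D, hO, hpO, hD, hpert⟩ := exists_perturb hp0
  -- a good closed ball
  have hA : ∀ᶠ p : HL in 𝓝 p0, (∀ j, p.1 j ≠ 0) ∧ p.2 ≠ 0 ∧ p.1 ∈ O := by
    have h1 : ∀ᶠ p : HL in 𝓝 p0, ∀ j, p.1 j ≠ 0 := by
      rw [eventually_all]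
      intro j
      have : ContinuousAt (fun p : HL => p.1 j) p0 := by fun_prop
      exact this.eventually_ne (hp0.1 j)
    have h2 : ∀ᶠ p : HL in 𝓝 p0, p.2 ≠ 0 := by
      have : ContinuousAt (fun p : HL => p.2) p0 := by fun_prop
      exact this.eventually_ne hp0.2.1
    have h3 : ∀ᶠ p : HL in 𝓝 p0, p.1 ∈ O := by
      have : ContinuousAt (fun p : HL => p.1) p0 := by fun_prop
      exact this.eventually_mem (hO.mem_nhds hpO)
    filter_upwards [h1, h2, h3] with p a b c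
    exact ⟨a, b, c⟩
  have hB : ∀ᶠ p : HL in 𝓝 p0, p ∈ XH → ‖x3 p‖ ≤ 1 / 2 := by
    have h1 := (continuousOn_x3 p0 hp0).norm
    have h2 : ∀ᶠ p in 𝓝[XH] p0, ‖x3 p‖ < 1 / 2 := by
      have h3 : Tendsto (fun p => ‖x3 p‖) (𝓝[XH] p0) (𝓝 0) := by
        have := h1.tendsto
        simpa [h0] using this
      exact h3.eventually (gt_mem_nhds (by norm_num))
    rw [eventually_nhdsWithin_iff] at h2
    filter_upwards [h2] with p hp hm
    exact (hp hm).le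
  obtain ⟨δ, hδ, hball⟩ := Metric.nhds_basis_closedBall.mem_iff.1 (hA.and hB)
  set B : Set HL := closedBall p0 δ ∩ {p | ev p.2 p.1 = 0} with hBdef
  have hBc : IsCompact B :=
    (isCompact_closedBall p0 δ).inter_right
      (isClosed_eq differentiable_ev.continuous continuous_const)
  have hBX : B ⊆ XH := by
    rintro p ⟨hp1, hp2⟩
    have := (hball hp1).1
    exact ⟨this.1, this.2.1, hp2⟩
  have hstep : ∀ (i : Fin 2) (p : HL) (ζ : ℂ), p ∈ B → ζ ∈ sphere (0 : ℂ) 1 →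
      ((p.1, p.2 + ζ • D i p.1) : HL) ∈ XH ∩ {p | x3 p ≠ 0} := by
    intro i p ζ hp hζ
    have hne : x3 (p.1, p.2) + ζ • (Pi.single i 1 : Fin 2 → ℂ) ≠ 0 := by
      intro hz
      have h1 : ‖x3 p‖ ≤ 1 / 2 := (hball hp.1).2 (hBX hp)
      have h2 : ζ • (Pi.single i 1 : Fin 2 → ℂ) = - x3 p := by
        rw [eq_neg_iff_add_eq_zero, add_comm]
        exact hz
      have h3 : ‖ζ • (Pi.single i 1 : Fin 2 → ℂ)‖ = 1 := by
        rw [norm_smul]
        have : ‖ζ‖ = 1 := by simpa using hζ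
        rw [this, one_mul]
        have h4 := Pi.norm_single (G := fun _ : Fin 2 => ℂ) (i := i) (1 : ℂ)
        simpa using h4
      rw [h2, norm_neg] at h3
      linarith
    have := hpert p.1 (hball hp.1).1.2.2 p.2 (hBX hp) i ζ hne
    refine ⟨this.1, ?_⟩
    show x3 (p.1, p.2 + ζ • D i p.1) ≠ 0
    rw [this.2]
    exact hne
  have hbd : ∀ i : Fin 2, ∃ C : ℝ, ∀ p ∈ B, ∀ ζ ∈ sphere (0 : ℂ) 1,
      w (p.1, p.2 + ζ • D i p.1) ≤ (C : EReal) := by
    intro i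
    have hcont : ContinuousOn (fun q : HL × ℂ => ((q.1.1, q.1.2 + q.2 • D i q.1.1) : HL))
        (B ×ˢ sphere (0 : ℂ) 1) := by
      have h1 : ContinuousOn (fun q : HL × ℂ => D i q.1.1) (B ×ˢ sphere (0 : ℂ) 1) :=
        (hD i).comp (by fun_prop) (fun q hq => (hball hq.1.1).1.2.2)
      have h2 : ContinuousOn (fun q : HL × ℂ => q.2) (B ×ˢ sphere (0 : ℂ) 1) :=
        continuous_snd.continuousOn
      have h3 : ContinuousOn (fun q : HL × ℂ => q.1.2) (B ×ˢ sphere (0 : ℂ) 1) := by fun_prop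
      have h4 : ContinuousOn (fun q : HL × ℂ => q.1.1) (B ×ˢ sphere (0 : ℂ) 1) := by fun_prop
      exact h4.prodMk (h3.add (h2.smul h1))
    have hK := (hBc.prod (isCompact_sphere (0 : ℂ) 1)).image_of_continuousOn hcont
    obtain ⟨C, hC⟩ := bdd_of_compact hK (hw.1.mono (by
      rintro _ ⟨q, hq, rfl⟩
      exact hstep i q.1 q.2 hq.1 hq.2)) (by
      rintro _ ⟨q, hq, rfl⟩
      exact hw.2.1 _ (hstep i q.1 q.2 hq.1 hq.2))
    exact ⟨C, fun p hp ζ hζ => hC _ ⟨(p, ζ), ⟨hp, hζ⟩, rfl⟩⟩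
  choose C hC using hbd
  refine ⟨max (C 0) (C 1), ?_⟩
  filter_upwards [self_mem_nhdsWithin, nhdsWithin_le_nhds (closedBall_mem_nhds p0 hδ)] with y hy hyb
  have hyB : y ∈ B := ⟨hyb, hy.1.2.2⟩
  -- choose the direction
  obtain ⟨k, hk⟩ : ∃ k, x3 y k ≠ 0 := Function.ne_iff.1 hy.2
  obtain ⟨i, hik⟩ : ∃ i : Fin 2, i ≠ k := exists_ne k
  have hne : ∀ ζ : ℂ, x3 (y.1, y.2) + ζ • (Pi.single i 1 : Fin 2 → ℂ) ≠ 0 := by
    intro ζ hz
    have := congrFun hz k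
    simp only [Pi.add_apply, Pi.smul_apply, Pi.single_eq_of_ne hik.symm, smul_zero, add_zero,
      Pi.zero_apply] at this
    exact hk this
  have hdisc : IsDisc (XH ∩ {p | x3 p ≠ 0}) (fun ζ : ℂ => ((y.1, y.2 + ζ • D i y.1) : HL)) := by
    refine ⟨2, by norm_num, ?_, ?_⟩
    · exact (by fun_prop : Differentiable ℂ
        (fun ζ : ℂ => ((y.1, y.2 + ζ • D i y.1) : HL))).differentiableOn
    · intro ζ _
      have := hpert y.1 (hball hyb).1.2.2 y.2 hy.1 i ζ (hne ζ)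
      refine ⟨this.1, ?_⟩
      show x3 (y.1, y.2 + ζ • D i y.1) ≠ 0
      rw [this.2]
      exact hne ζ
  have h1 := hw.2.2 _ hdisc (fun _ => C i) continuousOn_const (fun ζ hζ => hC i y hyB ζ hζ)
  rw [Real.circleAverage_const] at h1
  simp only [Function.comp, zero_smul, add_zero] at h1
  refine h1.trans ?_
  rw [EReal.coe_le_coe_iff]
  fin_cases i
  · exact le_max_left _ _
  · exact le_max_right _ _

theorem x3_hact_ne {c : Fin 3 → ℂ} {d : ℂ} (hc : ∀ j, c j ≠ 0) (hd : d ≠ 0) {p : HL} (hp : p ∈ XH) :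
    x3 (hact c d p) ≠ 0 ↔ x3 p ≠ 0 := by
  rw [x3_hact hc hd hp]
  have h : d * c 1 ^ 2 * c 2 ^ 2 / c 0 ≠ 0 :=
    div_ne_zero (mul_ne_zero (mul_ne_zero hd (pow_ne_zero _ (hc 1))) (pow_ne_zero _ (hc 2))) (hc 0)
  constructor
  · intro h1 h2
    exact h1 (by rw [h2, smul_zero])
  · intro h1
    exact smul_ne_zero h h1

theorem iot_hact {c : Fin 3 → ℂ} {d : ℂ} (hc : ∀ j, c j ≠ 0) (hd : d ≠ 0) {p : HL} (hp : p ∈ XH) :
    iot (hact c d p) = hact ![d * c 1 ^ 2 * c 2 ^ 2 / c 0, c 1, c 2] d (iot p) := by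
  simp only [iot]
  rw [x3_hact hc hd hp]
  ext1
  · funext j
    fin_cases j <;> simp [hact]
  · simp [hact]

/-- homogeneity of `Φ ∘ iot` -/
theorem InP.iot_hom {a : Fin 3 → ℝ} {b : ℝ} {Φ : HL → EReal} (h : InP a b Φ)
    {c : Fin 3 → ℂ} {d : ℂ} (hc : ∀ j, c j ≠ 0) (hd : d ≠ 0) {p : HL} (hp : p ∈ XH)
    (h3 : x3 p ≠ 0) :
    Φ (iot (hact c d p)) = Φ (iot p) +
      ((∑ j, (![-a 0, a 1 + 2 * a 0, a 2 + 2 * a 0] : Fin 3 → ℝ) j * Real.log ‖c j‖ +
        (b + a 0) * Real.log ‖d‖ : ℝ) : EReal) := by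
  rw [iot_hact hc hd hp]
  have hc' : ∀ j, (![d * c 1 ^ 2 * c 2 ^ 2 / c 0, c 1, c 2] : Fin 3 → ℂ) j ≠ 0 := by
    intro j
    fin_cases j
    · exact div_ne_zero (mul_ne_zero (mul_ne_zero hd (pow_ne_zero _ (hc 1)))
        (pow_ne_zero _ (hc 2))) (hc 0)
    · exact hc 1
    · exact hc 2
  rw [h.hom _ d hc' hd (iot p) (iot_mem hp h3)]
  congr 2
  have h0 : ‖c 0‖ ≠ 0 := norm_ne_zero_iff.2 (hc 0)
  have h1 : ‖c 1‖ ≠ 0 := norm_ne_zero_iff.2 (hc 1)
  have h2 : ‖c 2‖ ≠ 0 := norm_ne_zero_iff.2 (hc 2)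
  have h4 : ‖d‖ ≠ 0 := norm_ne_zero_iff.2 hd
  have hl : Real.log ‖d * c 1 ^ 2 * c 2 ^ 2 / c 0‖ =
      Real.log ‖d‖ + 2 * Real.log ‖c 1‖ + 2 * Real.log ‖c 2‖ - Real.log ‖c 0‖ := by
    rw [norm_div, norm_mul, norm_mul, norm_pow, norm_pow,
      Real.log_div (by positivity) h0, Real.log_mul (by positivity) (by positivity),
      Real.log_mul h4 (by positivity), Real.log_pow, Real.log_pow]
    push_cast
    ring
  simp only [Fin.sum_univ_three, Matrix.cons_val_zero, Matrix.cons_val_one, Matrix.cons_val]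
  rw [hl]
  ring

theorem hact_inv {c : Fin 3 → ℂ} {d : ℂ} (hc : ∀ j, c j ≠ 0) (hd : d ≠ 0) (p : HL) :
    hact (fun j => (c j)⁻¹) d⁻¹ (hact c d p) = p := by
  ext1
  · funext j
    simp [hact, smul_smul, hc j]
  · simp [hact, smul_smul, hd]

theorem hact_inv' {c : Fin 3 → ℂ} {d : ℂ} (hc : ∀ j, c j ≠ 0) (hd : d ≠ 0) (p : HL) :
    hact c d (hact (fun j => (c j)⁻¹) d⁻¹ p) = p := by
  ext1
  · funext j
    simp [hact, smul_smul, hc j]
  · simp [hact, smul_smul, hd]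

theorem continuous_hact (c : Fin 3 → ℂ) (d : ℂ) : Continuous (hact c d) := by
  unfold hact
  fun_prop

theorem limsup_add_coe_le {α : Type*} {f : Filter α} {u : α → EReal} (c : ℝ) :
    limsup (fun x => u x + (c : EReal)) f ≤ limsup u f + (c : EReal) := by
  refine EReal.le_of_forall_lt_iff_le.1 ?_
  intro z hz
  rw [add_coe_lt_coe] at hz
  have h1 := eventually_lt_of_limsup_lt hz
  refine limsup_le_of_le (by isBoundedDefault) ?_
  filter_upwards [h1] with x hx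
  rw [add_coe_le_coe]
  exact hx.le

theorem pbi_hact_le {a : Fin 3 → ℝ} {b : ℝ} {Φ : HL → EReal} (h : InP a b Φ)
    {c : Fin 3 → ℂ} {d : ℂ} (hc : ∀ j, c j ≠ 0) (hd : d ≠ 0) {p : HL} (hp : p ∈ XH) :
    pbi Φ (hact c d p) ≤ pbi Φ p +
      ((∑ j, (![-a 0, a 1 + 2 * a 0, a 2 + 2 * a 0] : Fin 3 → ℝ) j * Real.log ‖c j‖ +
        (b + a 0) * Real.log ‖d‖ : ℝ) : EReal) := by
  set R : ℝ := (∑ j, (![-a 0, a 1 + 2 * a 0, a 2 + 2 * a 0] : Fin 3 → ℝ) j * Real.log ‖c j‖ +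
        (b + a 0) * Real.log ‖d‖ : ℝ) with hR
  by_cases h3 : x3 p = 0
  · have h3' : x3 (hact c d p) = 0 := by
      by_contra hcon
      exact (x3_hact_ne hc hd hp).1 hcon h3
    have hl : pbi Φ (hact c d p) =
        limsup (Φ ∘ iot) (𝓝[XH ∩ {y | x3 y ≠ 0}] (hact c d p)) := ext_of_eq h3'
    have hr : pbi Φ p = limsup (Φ ∘ iot) (𝓝[XH ∩ {y | x3 y ≠ 0}] p) := ext_of_eq h3
    rw [hl, hr]
    have hci : ∀ j, (c j)⁻¹ ≠ 0 := fun j => inv_ne_zero (hc j)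
    have hdi : d⁻¹ ≠ 0 := inv_ne_zero hd
    have hT : Tendsto (hact (fun j => (c j)⁻¹) d⁻¹) (𝓝[XH ∩ {y | x3 y ≠ 0}] (hact c d p))
        (𝓝[XH ∩ {y | x3 y ≠ 0}] p) := by
      have h1 : ContinuousWithinAt (hact (fun j => (c j)⁻¹) d⁻¹) (XH ∩ {y | x3 y ≠ 0})
          (hact c d p) := (continuous_hact _ _).continuousWithinAt
      have h2 := h1.tendsto_nhdsWithin (t := XH ∩ {y | x3 y ≠ 0}) (by
        rintro q ⟨hq1, hq2⟩
        exact ⟨hact_mem hci hdi hq1, (x3_hact_ne hci hdi hq1).2 hq2⟩)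
      rwa [hact_inv hc hd] at h2
    have he : limsup (Φ ∘ iot) (𝓝[XH ∩ {y | x3 y ≠ 0}] (hact c d p)) =
        limsup ((fun q => (Φ ∘ iot) q + (R : EReal)) ∘ hact (fun j => (c j)⁻¹) d⁻¹)
          (𝓝[XH ∩ {y | x3 y ≠ 0}] (hact c d p)) := by
      apply limsup_congr
      filter_upwards [self_mem_nhdsWithin] with q hq
      have hq1 := hact_mem hci hdi hq.1
      have hq2 : x3 (hact (fun j => (c j)⁻¹) d⁻¹ q) ≠ 0 := (x3_hact_ne hci hdi hq.1).2 hq.2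
      have := h.iot_hom hc hd hq1 hq2
      rw [hact_inv' hc hd] at this
      exact this
    rw [he]
    calc limsup ((fun q => (Φ ∘ iot) q + (R : EReal)) ∘ hact (fun j => (c j)⁻¹) d⁻¹)
          (𝓝[XH ∩ {y | x3 y ≠ 0}] (hact c d p))
        = limsup (fun q => (Φ ∘ iot) q + (R : EReal))
          (map (hact (fun j => (c j)⁻¹) d⁻¹) (𝓝[XH ∩ {y | x3 y ≠ 0}] (hact c d p))) := rfl
      _ ≤ limsup (fun q => (Φ ∘ iot) q + (R : EReal)) (𝓝[XH ∩ {y | x3 y ≠ 0}] p) :=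
          limsup_le_limsup_of_le hT
      _ ≤ _ := limsup_add_coe_le R
  · rw [pbi_of_ne h3, pbi_of_ne ((x3_hact_ne hc hd hp).2 h3)]
    exact (h.iot_hom hc hd hp h3).le

theorem InP.pbi {a : Fin 3 → ℝ} {b : ℝ} {Φ : HL → EReal} (h : InP a b Φ) :
    InP ![-a 0, a 1 + 2 * a 0, a 2 + 2 * a 0] (b + a 0) (PNB.pbi Φ) := by
  have hw : PSHOn (Φ ∘ iot) (XH ∩ {y | x3 y ≠ 0}) :=
    h.psh.comp holOn_iot (fun p hp => iot_mem hp.1 hp.2)
  refine ⟨ext_psh locRetr_XH holOn_x3 hw fun x hx h0 => local_bound hw hx h0, ?_⟩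
  intro c d hc hd p hp
  refine le_antisymm (pbi_hact_le h hc hd hp) ?_
  have h1 := pbi_hact_le h (c := fun j => (c j)⁻¹) (d := d⁻¹) (fun j => inv_ne_zero (hc j))
    (inv_ne_zero hd) (hact_mem hc hd hp)
  rw [hact_inv hc hd] at h1
  have h2 := add_le_add_left h1
    (((∑ j, (![-a 0, a 1 + 2 * a 0, a 2 + 2 * a 0] : Fin 3 → ℝ) j * Real.log ‖c j‖ +
        (b + a 0) * Real.log ‖d‖ : ℝ) : EReal))
  refine h2.trans (le_of_eq ?_)
  have h3 : ((∑ j, (![-a 0, a 1 + 2 * a 0, a 2 + 2 * a 0] : Fin 3 → ℝ) j * Real.log ‖(c j)⁻¹‖ +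
        (b + a 0) * Real.log ‖d⁻¹‖ : ℝ)) =
      -((∑ j, (![-a 0, a 1 + 2 * a 0, a 2 + 2 * a 0] : Fin 3 → ℝ) j * Real.log ‖c j‖ +
        (b + a 0) * Real.log ‖d‖ : ℝ)) := by
    simp only [norm_inv, Real.log_inv, Fin.sum_univ_three]
    ring
  rw [h3]
  have h4 := add_coe_neg_cancel (PNB.pbi Φ (hact c d p))
    (-((∑ j, (![-a 0, a 1 + 2 * a 0, a 2 + 2 * a 0] : Fin 3 → ℝ) j * Real.log ‖c j‖ +
        (b + a 0) * Real.log ‖d‖ : ℝ)))
  rwa [neg_neg] at h4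

theorem rot_hact (c : Fin 3 → ℂ) (d : ℂ) (p : HL) :
    rot (hact c d p) = hact (fun j => c (j + 1)) d (rot p) := rfl

theorem rotInv_hact (c : Fin 3 → ℂ) (d : ℂ) (p : HL) :
    rotInv (hact c d p) = hact (fun j => c (j - 1)) d (rotInv p) := rfl

theorem InP.rot {a : Fin 3 → ℝ} {b : ℝ} {Φ : HL → EReal} (h : InP a b Φ) :
    InP (fun j => a (j - 1)) b (Φ ∘ PNB.rot) := by
  refine ⟨h.psh.comp holOn_rot fun p hp => rot_mem hp, ?_⟩
  intro c d hc hd p hp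
  show Φ (PNB.rot (hact c d p)) = Φ (PNB.rot p) + _
  rw [rot_hact, h.hom _ d (fun j => hc _) hd _ (rot_mem hp)]
  congr 2
  have e : ∑ j, a j * Real.log ‖c (j + 1)‖ = ∑ j, a (j - 1) * Real.log ‖c j‖ := by
    rw [← Equiv.sum_comp (Equiv.addRight (1 : Fin 3)) (fun j => a (j - 1) * Real.log ‖c j‖)]
    simp
  rw [e]

theorem InP.rotInv {a : Fin 3 → ℝ} {b : ℝ} {Φ : HL → EReal} (h : InP a b Φ) :
    InP (fun j => a (j + 1)) b (Φ ∘ PNB.rotInv) := by
  refine ⟨h.psh.comp holOn_rotInv fun p hp => rotInv_mem hp, ?_⟩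
  intro c d hc hd p hp
  show Φ (PNB.rotInv (hact c d p)) = Φ (PNB.rotInv p) + _
  rw [rotInv_hact, h.hom _ d (fun j => hc _) hd _ (rotInv_mem hp)]
  congr 2
  have e : ∑ j, a j * Real.log ‖c (j - 1)‖ = ∑ j, a (j + 1) * Real.log ‖c j‖ := by
    rw [← Equiv.sum_comp (Equiv.addRight (1 : Fin 3)) (fun j => a j * Real.log ‖c (j - 1)‖)]
    simp
  rw [e]

set_option linter.unusedVariables false in
/-- upper bounds by homogeneous potentials (sup norms) pass to the pull-back -/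
theorem pbi_le {a : Fin 3 → ℝ} {b M : ℝ} {Φ : HL → EReal} (h : InP a b Φ) (ha : 0 ≤ a 0)
    {C : ℝ} (hC : 1 ≤ C)
    (hx3 : ∀ p ∈ XH, ‖x3 p‖ * ‖p.1 0‖ ≤ C * (‖p.2‖ * ‖p.1 1‖ ^ 2 * ‖p.1 2‖ ^ 2))
    (hM : ∀ p ∈ XH, Φ p ≤ ((M + ∑ j, a j * Real.log ‖p.1 j‖ + b * Real.log ‖p.2‖ : ℝ) : EReal)) :
    ∀ p ∈ XH, PNB.pbi Φ p ≤
      ((M + a 0 * Real.log C + ∑ j, (![-a 0, a 1 + 2 * a 0, a 2 + 2 * a 0] : Fin 3 → ℝ) j *
        Real.log ‖p.1 j‖ + (b + a 0) * Real.log ‖p.2‖ : ℝ) : EReal) := by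
  have key : ∀ p ∈ XH, x3 p ≠ 0 → Φ (iot p) ≤
      ((M + a 0 * Real.log C + ∑ j, (![-a 0, a 1 + 2 * a 0, a 2 + 2 * a 0] : Fin 3 → ℝ) j *
        Real.log ‖p.1 j‖ + (b + a 0) * Real.log ‖p.2‖ : ℝ) : EReal) := by
    intro p hp h3
    refine (hM (iot p) (iot_mem hp h3)).trans ?_
    rw [EReal.coe_le_coe_iff]
    have n0 : 0 < ‖p.1 0‖ := norm_pos_iff.2 (hp.1 0)
    have n1 : 0 < ‖p.1 1‖ := norm_pos_iff.2 (hp.1 1)
    have n2 : 0 < ‖p.1 2‖ := norm_pos_iff.2 (hp.1 2)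
    have n3 : 0 < ‖p.2‖ := norm_pos_iff.2 hp.2.1
    have n4 : 0 < ‖x3 p‖ := norm_pos_iff.2 h3
    have hl : Real.log ‖x3 p‖ + Real.log ‖p.1 0‖ ≤
        Real.log C + (Real.log ‖p.2‖ + 2 * Real.log ‖p.1 1‖ + 2 * Real.log ‖p.1 2‖) := by
      rw [← Real.log_mul n4.ne' n0.ne']
      refine (Real.log_le_log (by positivity) (hx3 p hp)).trans (le_of_eq ?_)
      rw [Real.log_mul (by positivity) (by positivity), Real.log_mul (by positivity) (by positivity),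
        Real.log_mul n3.ne' (by positivity), Real.log_pow, Real.log_pow]
      push_cast
      ring
    simp only [iot, Fin.sum_univ_three, Matrix.cons_val_zero, Matrix.cons_val_one, Matrix.cons_val]
    nlinarith [mul_le_mul_of_nonneg_left hl ha]
  intro p hp
  by_cases h3 : x3 p = 0
  · have hr : PNB.pbi Φ p = limsup (Φ ∘ iot) (𝓝[XH ∩ {y | x3 y ≠ 0}] p) := ext_of_eq h3
    rw [hr]
    refine le_of_forall_pos fun ε hε => ?_
    refine limsup_le_of_le (by isBoundedDefault) ?_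
    set R : HL → ℝ := fun p => M + a 0 * Real.log C +
      ∑ j, (![-a 0, a 1 + 2 * a 0, a 2 + 2 * a 0] : Fin 3 → ℝ) j *
        Real.log ‖p.1 j‖ + (b + a 0) * Real.log ‖p.2‖ with hR
    have hRc : ContinuousAt R p := by
      have h1 : ∀ j, ContinuousAt (fun q : HL => Real.log ‖q.1 j‖) p := fun j =>
        ContinuousAt.log (by fun_prop) (norm_ne_zero_iff.2 (hp.1 j))
      have h2 : ContinuousAt (fun q : HL => Real.log ‖q.2‖) p :=
        ContinuousAt.log (by fun_prop) (norm_ne_zero_iff.2 hp.2.1)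
      simp only [hR, Fin.sum_univ_three]
      exact ((continuousAt_const.add (((continuousAt_const.mul (h1 0)).add
        (continuousAt_const.mul (h1 1))).add (continuousAt_const.mul (h1 2)))).add
        (continuousAt_const.mul h2))
    have h4 : ∀ᶠ q in 𝓝 p, R q < R p + ε := hRc.eventually (gt_mem_nhds (by linarith))
    filter_upwards [self_mem_nhdsWithin, nhdsWithin_le_nhds h4] with q hq1 hq2
    refine (key q hq1.1 hq1.2).trans ?_
    rw [EReal.coe_le_coe_iff]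
    exact hq2.le
  · rw [pbi_of_ne h3]
    exact key p hp h3

end PNB
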